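import Pool.Agent.N671.DA.Tup
import Pool.Agent.Results.MP_4e1cf2_ag.ArbitraryFactor

/-!
# Hodge classes at the best approximation vectors of systems of linear forms

Let `β_1, …, β_m`, `m ≥ 2`, be rational numbers in `(0, 1)` and let `X_t` be the fibres at the points `z = 1 / t` of the
hypergeometric variation of Hodge structure of rank `2m` and weight `2m - 1` with the exponents `β_j`, `1 - β_j`, for `m = 2`,
`β = (1/5, 2/5)` of the third cohomology of the mirror quintics. Let `Z` be an ARBITRARY smooth projective variety, `W` its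
rational cohomology with the grading of `W_ℂ` by the first Hodge index. Let `α` be a real matrix with `k` rows and `l` columns,
`b` in `ℝ^l` and `τ > 0`. We consider the integer vectors `v = (v_1, …, v_k)` with `‖(v α)_j - b_j‖ ≤ c |v| ^ (-τ)` for
`j = 1, …, l`, `‖x‖` the distance to the nearest integer and `|v|` the maximum norm; for `b = 0`, `c = 1` and `τ = k / l` they
include all best approximation vectors of the system of the linear forms `v α`, by the theorem of Minkowski. We show that for
all `α` outside a set of Hausdorff dimension less than `k l` (for `τ = k / l`), and so for almost all `α`, for all large `v` of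
this kind all Hodge classes on the products of powers of `Z` and of the fibres at the points `z = 1 / |v_i|` are combinations
of products of Hodge classes on the powers of `Z` and of the polarisations.

The best approximation vectors are a very sparse sequence, about `log T` vectors of norm at most `T`, and so this does not
follow from the size of the exceptional set, which is only smaller than `T^k` by a factor `T^δ` with a small positive `δ`.

Proof. The starting theorem `ArbitraryFactor` of this problem bounds the number of the exceptional tuples by `K T^(k - δ)`.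
The matrices `α` with `‖(v α)_j - b_j‖ ≤ c |v| ^ (-τ)` form neighbourhoods of parallel affine subspaces, covered by cubes of
side `|v| ^ (-1 - τ)` (`Pool.Agent.N671.DA`).
-/

set_option autoImplicit false

namespace Pool.Agent.Results.MP_4e1cf2_ag.BestApproximations

open Pool.Agent.N671.DA (Near approx_tuples)
open Pool.Agent.Results.MP_4e1cf2_ag.ArbitraryFactor (RationalStructure IsFibre OnlyProducts)

/-- **Hodge classes at the best approximation vectors.** Let `m ≥ 2`, let `β_1, …, β_m` be rational numbers in `(0, 1)`, let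
`k ≥ 1`, `d ≥ 0`. There is `δ > 0` such that for all rational structures `(C, A)` and all `W = ℚ^d` with a `ℤ`-grading of
`W_ℂ`, all `b ∈ ℝ^l` and `τ > 0`: for all real matrices `α` with `k` rows and `l` columns outside a set of Hausdorff dimension
at most `(k - 1) l + (l + k - δ) / (1 + τ)` and all `c`, for all large integer vectors `v` with
`‖(v α)_j - b_j‖ ≤ c |v| ^ (-τ)` for all `j` all `|v_i|` are at least `2` and the fibres `V_i` of the hypergeometric variation
at the points `z = 1 / |v_i|` have the property that all rational tensors of type `P` in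
`V_{c 1} ⊗ ⋯ ⊗ V_{c r} ⊗ W^{⊗ j}` (all `r`, `j`, `c`, `P`) are combinations of products of the polarisations on pairs of
factors of the same colour and rational tensors of type `P - r (2m - 1) / 2` in `W^{⊗ j}`. -/
theorem result (m : ℕ) (hm : 2 ≤ m) (β : Fin m → ℚ) (hβ : ∀ j, 0 < β j ∧ β j < 1) (k d : ℕ) (hk : 1 ≤ k) :
    ∃ δ : ℝ, 0 < δ ∧
      ∀ (C : Matrix (Fin (2 * m)) (Fin (2 * m)) ℂ) (A : Matrix (Fin (2 * m)) (Fin (2 * m)) ℚ), RationalStructure C A →
      ∀ W : ℤ → Submodule ℂ (Fin d → ℂ), DirectSum.IsInternal W →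
      ∀ (l : ℕ) (b : Fin l → ℝ) (τ : ℝ), 0 < τ →
      ∃ E : Set (Fin k × Fin l → ℝ),
        dimH E ≤ ENNReal.ofReal (((k : ℝ) - 1) * l + (l + ((k : ℝ) - δ)) / (1 + τ)) ∧
        ∀ α, α ∉ E → ∀ c : ℝ, ∃ Q : ℝ, ∀ v : Fin k → ℤ, Q ≤ ‖v‖ → Near α b v (c * ‖v‖ ^ (-τ)) →
          (∀ i, 2 ≤ (v i).natAbs) ∧ ∀ V : Fin k → ℕ → Submodule ℂ (Fin (2 * m) → ℂ),
            (∀ i, IsFibre β (v i).natAbs C A (V i)) → OnlyProducts A V W := by
  obtain ⟨δ, K, hδ, hK⟩ := (ArbitraryFactor.result hm β hβ).2 k d
  refine ⟨min δ 1, lt_min hδ one_pos, fun C A hC W hW l b τ hτ => ?_⟩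
  obtain ⟨E, hE, hE2⟩ := approx_tuples hk {t : Fin k → ℕ | ∃ V : Fin k → ℕ → Submodule ℂ (Fin (2 * m) → ℂ),
    (∀ i, IsFibre β (t i) C A (V i)) ∧ ¬ OnlyProducts A V W} (c₀ := min δ 1) (C₀ := |K|) (min_le_right _ _)
    (fun T hT => by
      have hT1 : (1 : ℝ) ≤ T := by exact_mod_cast hT
      have h1 : (({w : Fin k → ℕ | (∀ i, 2 ≤ w i ∧ w i ≤ T) ∧ w ∈ {t : Fin k → ℕ |
          ∃ V : Fin k → ℕ → Submodule ℂ (Fin (2 * m) → ℂ), (∀ i, IsFibre β (t i) C A (V i)) ∧
            ¬ OnlyProducts A V W}}.ncard : ℕ) : ℝ) ≤ K * (T : ℝ) ^ ((k : ℝ) - δ) := by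
        refine le_trans ?_ (hK C A hC W hW T hT)
        refine Nat.cast_le.2 (Set.ncard_le_ncard ?_
          ((Set.finite_Iic (fun _ => T : Fin k → ℕ)).subset fun τ hτ => fun i => hτ.1 i))
        rintro t ⟨ht, hV⟩
        exact ⟨fun i => (ht i).2, hV⟩
      refine h1.trans ?_
      have h2 : (T : ℝ) ^ ((k : ℝ) - δ) ≤ (T : ℝ) ^ ((k : ℝ) - min δ 1) :=
        Real.rpow_le_rpow_of_exponent_le hT1 (by linarith [min_le_left δ 1])
      have h3 : 0 ≤ (T : ℝ) ^ ((k : ℝ) - δ) := by positivity
      calc K * (T : ℝ) ^ ((k : ℝ) - δ) ≤ |K| * (T : ℝ) ^ ((k : ℝ) - δ) :=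
            mul_le_mul_of_nonneg_right (le_abs_self K) h3
        _ ≤ |K| * (T : ℝ) ^ ((k : ℝ) - min δ 1) := mul_le_mul_of_nonneg_left h2 (abs_nonneg K)) b hτ
  refine ⟨E, hE, fun α hα c => ?_⟩
  obtain ⟨Q, hQ⟩ := hE2 α hα c
  refine ⟨Q, fun v hv h1 => ?_⟩
  obtain ⟨h2, h3⟩ := hQ v hv h1
  refine ⟨h2, fun V hV => ?_⟩
  by_contra hcon
  exact h3 ⟨V, hV, hcon⟩

end Pool.Agent.Results.MP_4e1cf2_ag.BestApproximations
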