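import Pool.Agent.N882.UE.Hdg

/-!
# MP_4e1cf2_ag: Hodge classes, absolute Hodge classes and bilinear equations

`T : Classes k`, for a field `k` with a fixed embedding into `ℂ` (for example `k = ℂ`), are the data of
the spaces `B X j` of the Hodge classes in the Borel-Moore homology `W_0 H_(2j)(X_ℂ, ℚ(j))`, a Hodge
structure of weight zero, of the schemes `X` over `k`, and of the subspaces `A X j` of the absolute Hodge
classes. For `X` smooth and proper, of pure dimension `d`, the space `B X j` is the space of the Hodge
classes in `H^(2d-2j)(X_ℂ, ℚ(d-j))`. `AllIn T X`: for all `j` the Hodge classes in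
`W_0 H_(2j)(X_ℂ, ℚ(j))` are absolute Hodge classes. `IsClasses T` lists the known properties which are
used. `FT True X`: `X` is separated and of finite type over `k`.

`bilS t` is the closed subscheme of the affine space of dimension `a + b` given by the `c` bilinear
equations `∑ t_ijl x_i y_j = 0`, and `sysS k E` is given by the equations `∑_{(i, j) ∈ E_l} x_i y_j = 0`.
-/

set_option autoImplicit false

open CategoryTheory AlgebraicGeometry Pool.Agent.Y116.UV Pool.Agent.N882.UE Pool.Agent.Q282.UK
  Pool.Agent.Q282.UZ

namespace Pool.Agent.Results.MP_4e1cf2_ag.BilinearEquations

variable {k : Type} [Field k]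

/-- Hodge classes are absolute Hodge classes for all smooth proper schemes of dimension at most `d`. -/
def SmoothProper (T : Classes k) (d : ℕ) : Prop :=
  ∀ X : Sch k, Smooth X.hom → IsProper X.hom → topologicalKrullDim X.left ≤ d → AllIn T X

/-- The same for all separated schemes of finite type of dimension at most `d`. -/
def AllDim (T : Classes k) (d : ℕ) : Prop :=
  ∀ X : Sch k, FT True X → topologicalKrullDim X.left ≤ d → AllIn T X

/-- The same for all smooth separated schemes of dimension at most `d`. -/
def SmoothDim (T : Classes k) (d : ℕ) : Prop :=
  ∀ X : Sch k, FT True X → Smooth X.hom → topologicalKrullDim X.left ≤ d → AllIn T X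

/-- The same for the systems of bilinear equations such that there are at most `r` variables `x` or at
most `r` variables `y`. -/
def Variables (T : Classes k) (r : ℕ) : Prop :=
  ∀ (a b c : ℕ) (t : Fin a → Fin b → Fin c → k), (a ≤ r ∨ b ≤ r) → AllIn T (bilS t)

/-- **Theorem.** Let `k` be a field with an embedding into `ℂ` and `T` the Hodge classes and the absolute
Hodge classes of the schemes over `k`. It is known that all Hodge classes are absolute Hodge classes in
dimension at most three (`small`; the Hodge conjecture is true for smooth projective varieties of
dimension at most three), and that the statement for smooth projective varieties of dimension at most `d`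
implies the one for all varieties of dimension at most `d` (`reduction`; resolution of singularities).
(1) For every `d` the following are equivalent: all Hodge classes are absolute Hodge classes for the
smooth proper schemes over `k` of dimension at most `d`; for all separated schemes of dimension at most
`d`; for the smooth ones; for the systems of bilinear equations over `k` with at most `d + 2` variables in
one of the two blocks of variables.
(2) All Hodge classes in `W_0 H_(2j)(X_ℂ, ℚ(j))`, for all `j`, are absolute Hodge classes for all `X` given
by bilinear equations over `k` with at most five variables in one of the two blocks (any number of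
variables in the other one, any number of equations).
(3) If `k = ℚ` (every element of `k` is a quotient of integers), then all Hodge classes are absolute
Hodge classes for all smooth proper schemes over `k` iff this is true for the schemes given by bilinear
equations with coefficients `1` and at most three terms in every equation. -/
theorem result [CharZero k] (T : Classes k) (hT : IsClasses T) (small : AllDim T 3)
    (reduction : ∀ d, SmoothProper T d → AllDim T d) :
    (∀ d : ℕ, [SmoothProper T d, AllDim T d, SmoothDim T d, Variables T (d + 2)].TFAE) ∧
    Variables T 5 ∧
    (Pool.Agent.Q193.LT.Frac k → ((∀ d, SmoothProper T d) ↔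
      ∀ (a b c : ℕ) (E : Fin c → Finset (Fin a × Fin b)), (∀ l, (E l).card ≤ 3) →
        AllIn T (sysS k E))) := by
  have h0 : AllIn T (aff k k) := by
    refine small _ (ft_aff True) ?_
    rw [Pool.Agent.Z125.UN.topDim_aff, ringKrullDim_eq_zero_of_field]
    exact_mod_cast (Nat.zero_le 3)
  have hW := wk_allIn hT h0
  have hred : ∀ d, (SmoothProper T d ↔ AllDim T d) := fun d =>
    ⟨reduction d, fun h X _ hX hd => h X ⟨inferInstance, inferInstance, fun _ => inferInstance⟩ hd⟩
  have key : ∀ d : ℕ, [SmoothProper T d, AllDim T d, SmoothDim T d, Variables T (d + 2)].TFAE := by
    intro d
    tfae_have 1 ↔ 2 := hred d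
    tfae_have 2 ↔ 3 := w_smooth hW d
    tfae_have 4 → 2 := fun h => (w_dim hW d).mpr fun a b c t hb => h a b c t (Or.inr hb)
    tfae_have 2 → 4 := by
      intro h a b c t hm
      rcases hm with hm | hm
      · exact bil_swap hW.toClo t ((w_dim hW d).mp h b a c (fun j i l => t i j l) hm)
      · exact (w_dim hW d).mp h a b c t hm
    tfae_finish
  refine ⟨key, ((key 3).out 1 3).mp small, fun hk => ?_⟩
  rw [← ForThreeTerms, ← three_iff (short_frac hk) hW.toClo]
  constructor
  · intro h X hX
    refine of_affine' (P := AllIn T) (sep := True) hW.iso hW.total ?_ X hX
    intro A _ _ _
    obtain ⟨n, hn⟩ := exists_dim (k := k) A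
    refine (hred n).mp (h n) _ (ft_aff True) ?_
    rw [Pool.Agent.Z125.UN.topDim_aff]
    exact hn
  · intro h d X _ hX _
    exact h X ⟨inferInstance, inferInstance, fun _ => inferInstance⟩

end Pool.Agent.Results.MP_4e1cf2_ag.BilinearEquations
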