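import Pool.Agent.N733.TG.M
import Pool.Agent.N733.TG.K
import Pool.Agent.Results.MP_4e1cf2_ag.ArbitraryFactor

/-!
# Hodge classes on products of an arbitrary variety and fibres at the values of multiplicative functions

Let `β_1, …, β_m`, `m ≥ 2`, be rational numbers in `(0, 1)` and let `X_t` be the fibres at the points `z = 1 / t`, `t = 2, 3, …`,
of the hypergeometric variation of Hodge structure of rank `2m` and weight `2m - 1` with the exponents `β_j`, `1 - β_j`, for
`m = 2`, `β = (1/5, 2/5)` of the third cohomology of the mirror quintics. Let `Z` be an ARBITRARY smooth projective variety,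
`W` its rational cohomology with the grading of `W_ℂ` by the first Hodge index. Let `f_1, …, f_k` be positive multiplicative
functions of at most polynomial growth, linearly bounded and injective at the large primes, for example Euler's function or
the sum of the divisors. Then for all `k`-tuples `(a_1, …, a_k)` of numbers `≤ N` but `N^k / (log N)^U` all Hodge classes
on the products of powers of `Z` and of the fibres at the points `z = 1 / f_i(a_i)` are combinations of products of Hodge classes
on the powers of `Z` and of the polarisations; uniformly in all rational structures and all `Z` of given dimension of `W`.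
The values of `f_i` are in general taken with very large multiplicities.

Proof. The starting theorem `ArbitraryFactor` of this problem shows that the exceptional set of tuples of points has a power
saving; such sets are avoided by the values of multiplicative functions of this kind (`Pool/Agent/N733/TG`, helper733).
-/

set_option autoImplicit false

namespace Pool.Agent.Results.MP_4e1cf2_ag.MultiplicativeValues

open Pool.Agent.N733.TG (LM lm_totient lm_sigma keep_tuples2)
open Pool.Agent.Results.MP_4e1cf2_ag.ArbitraryFactor (RationalStructure IsFibre OnlyProducts)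

/-- **Hodge classes at the values of multiplicative functions.** Let `m ≥ 2`, let `β_1, …, β_m` be rational numbers in
`(0, 1)`, let `k ≥ 1`, `d ≥ 0`, and let `f_1, …, f_k` be multiplicative and positive, of at most polynomial growth, with
`f_i p ≤ L p` at the large primes, and injective there. For every `U` and all large `N`, for all rational structures
`(C, A)` and all `W = ℚ^d` with a `ℤ`-grading of `W_ℂ`: for all tuples `(a_1, …, a_k)` of natural numbers from `1` to `N` but at most
`N^k / (log N)^U` the fibres `V_i` of the hypergeometric variation at the points `z = 1 / f_i(a_i)` have the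
property that all rational tensors of type `P` in `V_{c 1} ⊗ ⋯ ⊗ V_{c r} ⊗ W^{⊗ j}` (all `r`, `j`, `c`, `P`) are combinations
of products of the polarisations on pairs of factors of the same colour and rational tensors of type `P - r (2m - 1) / 2` in
`W^{⊗ j}`. Euler's function and the sum of the divisors are examples of such functions `f_i`. -/
theorem result :
    (∀ m : ℕ, 2 ≤ m → ∀ β : Fin m → ℚ, (∀ j, 0 < β j ∧ β j < 1) → ∀ k d : ℕ, 1 ≤ k →
      ∀ f : Fin k → ℕ → ℕ, (∀ i, LM (f i)) → ∀ U : ℕ, ∃ N₀ : ℕ, ∀ N : ℕ, N₀ ≤ N →
      ∀ (C : Matrix (Fin (2 * m)) (Fin (2 * m)) ℂ) (A : Matrix (Fin (2 * m)) (Fin (2 * m)) ℚ), RationalStructure C A →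
      ∀ W : ℤ → Submodule ℂ (Fin d → ℂ), DirectSum.IsInternal W →
      ({a : Fin k → ℕ | (∀ i, 1 ≤ a i ∧ a i ≤ N) ∧ ∃ V : Fin k → ℕ → Submodule ℂ (Fin (2 * m) → ℂ),
        (∀ i, IsFibre β (f i (a i)) C A (V i)) ∧ ¬ OnlyProducts A V W}.ncard : ℝ) ≤ (N : ℝ) ^ k / Real.log N ^ U) ∧
    LM Nat.totient ∧ LM (fun m => ∑ d ∈ m.divisors, d) := by
  refine ⟨fun m hm β hβ k d hk f hf U => ?_, lm_totient, lm_sigma⟩
  obtain ⟨δ, K, hδ, hK⟩ := (ArbitraryFactor.result hm β hβ).2 k d
  obtain ⟨N₀, hN₀⟩ := keep_tuples2 hk hf hδ U K
  refine ⟨N₀, fun N hN C A hC W hW => ?_⟩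
  have h1 := hN₀ N hN {τ : Fin k → ℕ | ∃ V : Fin k → ℕ → Submodule ℂ (Fin (2 * m) → ℂ),
    (∀ i, IsFibre β (τ i) C A (V i)) ∧ ¬ OnlyProducts A V W} (fun X hX => by
      refine le_trans ?_ (hK C A hC W hW X hX)
      refine Nat.cast_le.2 (Set.ncard_le_ncard ?_
        ((Set.finite_Iic (fun _ => X : Fin k → ℕ)).subset fun τ hτ => fun i => hτ.1 i))
      rintro τ ⟨hτ, hV⟩
      exact ⟨fun i => (hτ i).2, hV⟩)
  refine le_trans ?_ h1
  refine Nat.cast_le.2 (Set.ncard_le_ncard ?_
    ((Set.finite_Iic (fun _ => N : Fin k → ℕ)).subset fun a ha => fun i => (ha.1 i).2))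
  rintro a ⟨ha, hV⟩
  exact ⟨ha, fun h => h.2 hV⟩

end Pool.Agent.Results.MP_4e1cf2_ag.MultiplicativeValues
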